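import Mathlib

/-!
# MP_36fbc5_co, Q2: a non-classical symmetric net with a group transitive on both kinds of pairs

The symmetric `(3,2)`-net of the generalised Hadamard matrix `GH(6; Z_3)` has 18 points and an automorphism
group which is transitive on ordered pairs of joined points and on ordered pairs of distinct non-joined
points; it is not classical.
-/

set_option autoImplicit false

namespace Pool.Agent.Results.MP_36fbc5_co.GHSix

/-- `I p b` says that the point `p` lies on the block `b`.  `IsNet s r μ I`: the incidence structure is an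
`(s, r, μ)`-net.  There are `s ^ 2 * μ` points, the blocks are pairwise distinct sets of `s * μ` points, they
fall into `r` parallel classes (`c b` is the class of `b`) each of which partitions the point set, and two
blocks from different classes meet in exactly `μ` points. -/
def IsNet {P B : Type} (s r μ : ℕ) (I : P → B → Prop) : Prop :=
  Nat.card P = s ^ 2 * μ ∧
  (∀ b, {p | I p b}.ncard = s * μ) ∧
  (∀ b b', (∀ p, I p b ↔ I p b') → b = b') ∧
  ∃ c : B → Fin r,
    (∀ (k : Fin r) (p : P), ∃! b, c b = k ∧ I p b) ∧
    (∀ b b', c b ≠ c b' → {p | I p b ∧ I p b'}.ncard = μ)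

/-- a symmetric `(s, μ)`-net: an `(s, s μ, μ)`-net whose dual is again an `(s, s μ, μ)`-net -/
def IsSymmetricNet {P B : Type} (s μ : ℕ) (I : P → B → Prop) : Prop :=
  IsNet s (s * μ) μ I ∧ IsNet s (s * μ) μ (fun b p => I p b)

/-- two distinct points are joined if some block contains both -/
def Joined {P B : Type} (I : P → B → Prop) (p q : P) : Prop :=
  p ≠ q ∧ ∃ b, I p b ∧ I q b

/-- a permutation of the points which maps blocks to blocks -/
def IsAutomorphism {P B : Type} (I : P → B → Prop) (g : Equiv.Perm P) : Prop :=
  ∀ b, ∃ b', ∀ p, I p b ↔ I (g p) b'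

/-- `H` is a hyperplane `a · x = c` of the affine space `AG(d, F)` which contains no line of direction `u`
(that is, `a · u ≠ 0`) -/
def IsTransversal {F : Type} [Field F] {d : ℕ} (u : Fin d → F) (H : Set (Fin d → F)) : Prop :=
  ∃ (a : Fin d → F) (c : F), a ⬝ᵥ u ≠ 0 ∧ H = {x | a ⬝ᵥ x = c}

/-- the net is isomorphic to the one of `AG(d, F)` and the direction `u`: some bijection from its points to
`F ^ d` carries its blocks exactly to the hyperplanes containing no line of direction `u` -/
def IsAffine {P B : Type} (I : P → B → Prop) (F : Type) [Field F] (d : ℕ) (u : Fin d → F) : Prop :=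
  ∃ φ : P ≃ (Fin d → F), ∀ H : Set (Fin d → F),
    IsTransversal u H ↔ ∃ b, H = {x | I (φ.symm x) b}

/-- the net is classical: it comes from `AG(d, F)`, `d ≥ 2`, `F` a finite field, and some direction -/
def IsClassical {P B : Type} (I : P → B → Prop) : Prop :=
  ∃ (F : Type) (_ : Field F) (_ : Finite F) (d : ℕ) (u : Fin d → F), 2 ≤ d ∧ u ≠ 0 ∧ IsAffine I F d u

/-- the incidence matrix, row by row -/
def mat : ℕ := 17766384469220241766763236084472946511329565874818610831366501860566083761102569682386785552339529

/-- points table of the 36 permutations -/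
def tp : ℕ := 635363853039759006337078080401469948710868268365752124754813893934793589149111548212171168469736753419478168627446207242739472092044853045164905458245333890327616432760851417707250666143430372390608603003656185735977996164834733898031509082371445480464506961233784185968454684908433699886625614649230471091844500915911513873980857809280963493116696448781510584924776409050933404970896547095671571392312146015255983453109892863010178572858473820502552734339938603990321804106008289171928372702681565646721180714769448745216680220687912419601532903800604337119146905232420276542772826171919528437961626838749651568108186178420536510045313971124008048104807102903248314756367073383617959780124001421920067354787434745799938966855987055689819409926284626892299713737213907981468377298789517456581688902332485343208407986231668287434620790566620190407812660166909070861830536717654323093734293797489496114300506422621222235502096824485407615469534423178496287858109198860327946272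

/-- blocks table of the 36 permutations -/
def tb : ℕ := 1189704035014645586566435289445519622343995159546930824616466732520725636238170070071820779275705204546806468091660054712936318099087045085073965474402878901113224571887913437165865872989743014208279854537890160866086670505270636999597086800540973141040159430652323422214440879568375000591117279116057737638114296148902995048792999962011837462856510940328044979361422608075733642772646832985681528233070097585550805319808557542498181149241691690228095428814055610216195540137844639863729896939952407415854782044422599194488054531328208996451214441022746315189455998466767779893956722937427518388620655079766812677145651221483142869528028928918595545351379478649462651655497451311172243585324308986440679426956696608536075322424913865805037945007286421192091080347573669302590122343422554731495552982406798147164727479535254764508874112661692024084016170463342713603785700574286160801474398010387724056911824577179504900150856451822399769767985250829085967949958710384274802720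

/-- the incidence of the net -/
def inc (p b : Fin 18) : Prop := Nat.testBit mat (18 * p.1 + b.1) = true

instance : DecidableRel inc := fun _ _ => inferInstanceAs (Decidable (_ = true))

/-- lookup of entry `x` of permutation `k` -/
def look (t : ℕ) (k : Fin 36) (x : Fin 18) : Fin 18 :=
  Fin.ofNat 18 ((t >>> (5 * (18 * k.1 + x.1))) % 32)

lemma inj_p : ∀ k : Fin 36, Function.Injective (look tp k) := by
  decide +kernel

lemma inj_b : ∀ k : Fin 36, Function.Injective (look tb k) := by
  decide +kernel

lemma aut : ∀ (k : Fin 36) (p b : Fin 18), inc p b ↔ inc (look tp k p) (look tb k b) := by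
  decide +kernel

/-- the class of a block (column of the matrix), also the class of a point (row of the matrix) -/
def cls (b : Fin 18) : Fin (3 * 2) := Fin.ofNat 6 (b.1 / 3)

lemma card_block : ∀ b : Fin 18, (Finset.univ.filter (fun p => inc p b)).card = 3 * 2 := by
  decide +kernel

lemma card_point : ∀ p : Fin 18, (Finset.univ.filter (fun b => inc p b)).card = 3 * 2 := by
  decide +kernel

lemma card_blocks : ∀ b b' : Fin 18, cls b ≠ cls b' →
    (Finset.univ.filter (fun p => inc p b ∧ inc p b')).card = 2 := by
  decide +kernel

lemma card_points : ∀ p p' : Fin 18, cls p ≠ cls p' →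
    (Finset.univ.filter (fun b => inc p b ∧ inc p' b)).card = 2 := by
  decide +kernel

lemma part_block : ∀ (k : Fin 6) (p : Fin 18), ∃ b, (cls b = k ∧ inc p b) ∧
    ∀ b', cls b' = k ∧ inc p b' → b' = b := by
  decide +kernel

lemma part_point : ∀ (k : Fin 6) (b : Fin 18), ∃ p, (cls p = k ∧ inc p b) ∧
    ∀ p', cls p' = k ∧ inc p' b → p' = p := by
  decide +kernel

lemma inj_block : ∀ b b' : Fin 18, (∀ p, inc p b ↔ inc p b') → b = b' := by
  decide +kernel

lemma inj_point : ∀ p p' : Fin 18, (∀ b, inc p b ↔ inc p' b) → p = p' := by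
  decide +kernel

lemma symmetric_net : IsSymmetricNet 3 2 inc := by
  refine ⟨⟨by simp, ?_, inj_block, cls, ?_, ?_⟩, ⟨by simp, ?_, inj_point, cls, ?_, ?_⟩⟩
  · intro b
    rw [← card_block b, ← Set.ncard_coe_finset]
    simp
  · exact fun k p => part_block k p
  · intro b b' h
    rw [← card_blocks b b' h, ← Set.ncard_coe_finset]
    simp
  · intro p
    rw [← card_point p, ← Set.ncard_coe_finset]
    simp
  · exact fun k b => part_point k b
  · intro p p' h
    rw [← card_points p p' h, ← Set.ncard_coe_finset]
    simp

lemma not_classical : ¬ IsClassical inc := by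
  rintro ⟨F, hF, hfin, d, u, hd, -, φ, -⟩
  have h1 := Nat.card_congr φ
  rw [Nat.card_fun, Nat.card_fin, Nat.card_fin] at h1
  set c := Nat.card F with hc
  have h2 : c < 5 := by
    by_contra h
    have h3 : 5 ^ 2 ≤ c ^ d :=
      (Nat.pow_le_pow_left (not_lt.1 h) 2).trans (Nat.pow_le_pow_right (by omega) hd)
    omega
  have hd5 : 2 ≤ c → d < 5 := by
    intro h
    by_contra h'
    have h3 : 2 ^ 5 ≤ c ^ d :=
      (Nat.pow_le_pow_left h 5).trans (Nat.pow_le_pow_right (by omega) (not_lt.1 h'))
    omega
  interval_cases c
  · rw [zero_pow (by omega)] at h1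
    omega
  · rw [one_pow] at h1
    omega
  all_goals
    have h5 := hd5 (by norm_num)
    interval_cases d <;> omega

/-- the full automorphism group -/
def autGroup : Subgroup (Equiv.Perm (Fin 18)) where
  carrier := {g | ∃ h : Equiv.Perm (Fin 18), ∀ p b, inc p b ↔ inc (g p) (h b)}
  one_mem' := ⟨1, fun _ _ => Iff.rfl⟩
  mul_mem' := by
    rintro g g' ⟨h, hh⟩ ⟨h', hh'⟩
    exact ⟨h * h', fun p b => (hh' p b).trans (hh (g' p) (h' b))⟩
  inv_mem' := by
    rintro g ⟨h, hh⟩
    refine ⟨h⁻¹, fun p b => ?_⟩
    rw [hh (g⁻¹ p) (h⁻¹ b)]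
    simp

/-- the `k`-th permutation of the points -/
noncomputable def gp (k : Fin 36) : Equiv.Perm (Fin 18) :=
  Equiv.ofBijective (look tp k) (Finite.injective_iff_bijective.1 (inj_p k))

lemma gp_mem (k : Fin 36) : gp k ∈ autGroup :=
  ⟨Equiv.ofBijective (look tb k) (Finite.injective_iff_bijective.1 (inj_b k)), fun p b => aut k p b⟩

lemma look_zero : ∀ p : Fin 18, look tp (Fin.ofNat 36 p.1) 0 = p := by
  decide +kernel

lemma look_joined : ∀ q : Fin 18, ((0 : Fin 18) ≠ q ∧ ∃ b, inc 0 b ∧ inc q b) →
    look tp (Fin.ofNat 36 (18 + q.1)) 0 = 0 ∧ look tp (Fin.ofNat 36 (18 + q.1)) 3 = q := by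
  decide +kernel

lemma look_nonjoined : ∀ q : Fin 18, ((0 : Fin 18) ≠ q ∧ ¬ ∃ b, inc 0 b ∧ inc q b) →
    look tp (Fin.ofNat 36 (18 + q.1)) 0 = 0 ∧ look tp (Fin.ofNat 36 (18 + q.1)) 1 = q := by
  decide +kernel

lemma common (g : Equiv.Perm (Fin 18)) (hg : g ∈ autGroup) (p q : Fin 18) :
    (∃ b, inc (g p) b ∧ inc (g q) b) ↔ ∃ b, inc p b ∧ inc q b := by
  obtain ⟨h, hh⟩ := hg
  constructor
  · rintro ⟨b, h1, h2⟩
    refine ⟨h.symm b, (hh p _).2 ?_, (hh q _).2 ?_⟩
    · simpa using h1
    · simpa using h2
  · rintro ⟨b, h1, h2⟩
    exact ⟨h b, (hh p b).1 h1, (hh q b).1 h2⟩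

lemma from_base (p q : Fin 18) (hpq : p ≠ q) :
    ((∃ b, inc p b ∧ inc q b) → ∃ g ∈ autGroup, g 0 = p ∧ g 3 = q) ∧
    ((¬ ∃ b, inc p b ∧ inc q b) → ∃ g ∈ autGroup, g 0 = p ∧ g 1 = q) := by
  set g1 := gp (Fin.ofNat 36 p.1) with hg1
  have m1 : g1 ∈ autGroup := gp_mem _
  have e1 : g1 0 = p := look_zero p
  set q' := g1⁻¹ q with hq'
  have e2 : g1 q' = q := by simp [hq']
  have hne : (0 : Fin 18) ≠ q' := by
    intro h
    apply hpq
    rw [← e1, ← e2, ← h]
  have hc := common g1 m1 0 q'
  rw [e1, e2] at hc
  set g2 := gp (Fin.ofNat 36 (18 + q'.1)) with hg2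
  have m2 : g2 ∈ autGroup := gp_mem _
  constructor
  · intro hj
    have h3 := look_joined q' ⟨hne, hc.1 hj⟩
    refine ⟨g1 * g2, autGroup.mul_mem m1 m2, ?_, ?_⟩
    · have h4 : g2 0 = 0 := h3.1
      rw [Equiv.Perm.mul_apply, h4, e1]
    · have h4 : g2 3 = q' := h3.2
      rw [Equiv.Perm.mul_apply, h4, e2]
  · intro hj
    have h3 := look_nonjoined q' ⟨hne, fun h => hj (hc.2 h)⟩
    refine ⟨g1 * g2, autGroup.mul_mem m1 m2, ?_, ?_⟩
    · have h4 : g2 0 = 0 := h3.1
      rw [Equiv.Perm.mul_apply, h4, e1]
    · have h4 : g2 1 = q' := h3.2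
      rw [Equiv.Perm.mul_apply, h4, e2]

/-- **Disproof of Q2.**  There is a symmetric `(3,2)`-net which is not classical and has a group of
automorphisms transitive on ordered pairs of joined points and on ordered pairs of distinct non-joined
points (in particular on the unordered pairs of both kinds). -/
theorem result : ∃ I : Fin 18 → Fin 18 → Prop,
    IsSymmetricNet 3 2 I ∧ ¬ IsClassical I ∧
    ∃ G : Subgroup (Equiv.Perm (Fin 18)),
      (∀ g ∈ G, IsAutomorphism I g) ∧
      (∀ p q p' q', Joined I p q → Joined I p' q' → ∃ g ∈ G, g p = p' ∧ g q = q') ∧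
      (∀ p q p' q', p ≠ q → ¬ Joined I p q → p' ≠ q' → ¬ Joined I p' q' →
        ∃ g ∈ G, g p = p' ∧ g q = q') := by
  refine ⟨inc, symmetric_net, not_classical, autGroup, ?_, ?_, ?_⟩
  · rintro g ⟨h, hh⟩ b
    exact ⟨h b, fun p => hh p b⟩
  · rintro p q p' q' ⟨h1, h2⟩ ⟨h3, h4⟩
    obtain ⟨g, hg, e1, e2⟩ := (from_base p q h1).1 h2
    obtain ⟨g', hg', e1', e2'⟩ := (from_base p' q' h3).1 h4
    refine ⟨g' * g⁻¹, autGroup.mul_mem hg' (autGroup.inv_mem hg), ?_, ?_⟩
    · rw [← e1, ← e1']; simp
    · rw [← e2, ← e2']; simp
  · intro p q p' q' h1 h2 h3 h4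
    obtain ⟨g, hg, e1, e2⟩ := (from_base p q h1).2 (fun h => h2 ⟨h1, h⟩)
    obtain ⟨g', hg', e1', e2'⟩ := (from_base p' q' h3).2 (fun h => h4 ⟨h3, h⟩)
    refine ⟨g' * g⁻¹, autGroup.mul_mem hg' (autGroup.inv_mem hg), ?_, ?_⟩
    · rw [← e1, ← e1']; simp
    · rw [← e2, ← e2']; simp

end Pool.Agent.Results.MP_36fbc5_co.GHSix
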